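import Pool.Agent.Helper98.MW.Defs

/-! MW-A01. Sums and multiples. Proof: `fderiv_add`, `fderiv_const_mul` (as functions, because `f`, `g` are
differentiable everywhere), then once more for the derivative functions `fderiv ℝ f` (differentiable by
`ContDiff.fderiv_right` / `ContDiff.differentiable_fderiv`), and evaluate at `v`, `u`. -/

namespace Pool.Agent.Helper98.MW

variable {E : Type*} [NormedAddCommGroup E] [NormedSpace ℝ E]

private theorem a01_diff {f : E → ℝ} (hf : ContDiff ℝ (⊤ : ℕ∞) f) : Differentiable ℝ f :=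
  hf.differentiable (by simp)

private theorem a01_diff2 {f : E → ℝ} (hf : ContDiff ℝ (⊤ : ℕ∞) f) :
    Differentiable ℝ (fderiv ℝ f) := by
  have h : ContDiff ℝ 1 (fderiv ℝ f) := by
    have h2 : ContDiff ℝ 2 f := hf.of_le (by norm_cast)
    exact h2.fderiv_right (by norm_num)
  exact h.differentiable (by simp)

theorem H2_add {f g : E → ℝ} (hf : ContDiff ℝ (⊤ : ℕ∞) f) (hg : ContDiff ℝ (⊤ : ℕ∞) g)
    (P v u : E) : H2 (fun Q => f Q + g Q) P v u = H2 f P v u + H2 g P v u := by
  have h1 : fderiv ℝ (fun Q => f Q + g Q) = fun Q => fderiv ℝ f Q + fderiv ℝ g Q := by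
    funext Q
    exact fderiv_fun_add (a01_diff hf Q) (a01_diff hg Q)
  unfold H2
  rw [h1, fderiv_fun_add (a01_diff2 hf P) (a01_diff2 hg P)]
  rfl

theorem H2_const_mul {f : E → ℝ} (hf : ContDiff ℝ (⊤ : ℕ∞) f) (k : ℝ) (P v u : E) :
    H2 (fun Q => k * f Q) P v u = k * H2 f P v u := by
  have h1 : fderiv ℝ (fun Q => k * f Q) = fun Q => k • fderiv ℝ f Q := by
    funext Q
    exact fderiv_const_mul (a01_diff hf Q) k
  unfold H2
  rw [h1, fderiv_fun_const_smul (a01_diff2 hf P) k]
  rfl

end Pool.Agent.Helper98.MW
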