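import Pool.Agent.Helper98.MW.Defs

/-! MW-A03. Elementary facts on `H2`.
* `H2_congr`: `Filter.EventuallyEq.fderiv` twice.
* `H2_continuous`: `fderiv ℝ (fderiv ℝ f)` is continuous (`ContDiff.fderiv_right` twice, `ContDiff.continuous`),
  then `Continuous.clm_apply` twice.
* `H2_symm`: `ContDiffAt.isSymmSndFDerivAt` (or `second_derivative_symmetric`).
* `H2_periodic`, `fderiv_periodic`: `f = f ∘ (· + c)`, use `fderiv_comp_add_right` twice. -/

namespace Pool.Agent.Helper98.MW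

open Topology

variable {E : Type*} [NormedAddCommGroup E] [NormedSpace ℝ E]

theorem H2_congr {f g : E → ℝ} {P : E} (h : f =ᶠ[𝓝 P] g) (v u : E) :
    H2 f P v u = H2 g P v u := by
  unfold H2
  rw [h.fderiv.fderiv_eq]

theorem H2_continuous {f : E → ℝ} (hf : ContDiff ℝ (⊤ : ℕ∞) f) :
    Continuous (fun q : E × E × E => H2 f q.1 q.2.1 q.2.2) := by
  have h1 : ContDiff ℝ (⊤ : ℕ∞) (fderiv ℝ f) := hf.fderiv_right (by simp)
  have h2 : ContDiff ℝ (⊤ : ℕ∞) (fderiv ℝ (fderiv ℝ f)) := h1.fderiv_right (by simp)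
  unfold H2
  exact ((h2.continuous.comp continuous_fst).clm_apply (continuous_fst.comp continuous_snd)).clm_apply
    (continuous_snd.comp continuous_snd)

theorem H2_symm {f : E → ℝ} (hf : ContDiff ℝ (⊤ : ℕ∞) f) (P v u : E) :
    H2 f P v u = H2 f P u v := by
  have h : IsSymmSndFDerivAt ℝ f P := hf.contDiffAt.isSymmSndFDerivAt (by
    rw [minSmoothness_of_isRCLikeNormedField]
    exact WithTop.coe_le_coe.2 (le_top : (2 : ℕ∞) ≤ ⊤))
  exact h.eq v u

theorem fderiv_periodic {f : E → ℝ} {c : E} (h : ∀ Q, f (Q + c) = f Q) (P : E) :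
    fderiv ℝ f (P + c) = fderiv ℝ f P := by
  rw [← fderiv_comp_add_right]
  congr 1
  funext Q
  exact h Q

theorem H2_periodic {f : E → ℝ} {c : E} (h : ∀ Q, f (Q + c) = f Q) (P v u : E) :
    H2 f (P + c) v u = H2 f P v u := by
  unfold H2
  have e : fderiv ℝ (fderiv ℝ f) (P + c) = fderiv ℝ (fderiv ℝ f) P := by
    rw [← fderiv_comp_add_right]
    congr 1
    funext Q
    exact fderiv_periodic h Q
  rw [e]

end Pool.Agent.Helper98.MW
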