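import Pool.Agent.Helper98.MW.Defs

/-! MW-A02. Second derivative of a composition. Proof: `fderiv ℝ (f ∘ Φ) Q = (fderiv ℝ f (Φ Q)).comp
(fderiv ℝ Φ Q)` for all `Q` (`fderiv_comp'`); differentiate with `HasFDerivAt.clm_comp` and evaluate. -/

namespace Pool.Agent.Helper98.MW

variable {E : Type*} [NormedAddCommGroup E] [NormedSpace ℝ E]
  {F : Type*} [NormedAddCommGroup F] [NormedSpace ℝ F]

theorem H2_comp {f : F → ℝ} {Φ : E → F} (hf : ContDiff ℝ (⊤ : ℕ∞) f)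
    (hΦ : ContDiff ℝ (⊤ : ℕ∞) Φ) (P v u : E) :
    H2 (fun Q => f (Φ Q)) P v u = H2 f (Φ P) (fderiv ℝ Φ P v) (fderiv ℝ Φ P u)
      + fderiv ℝ f (Φ P) (fderiv ℝ (fderiv ℝ Φ) P v u) := by
  have hfd : Differentiable ℝ f := hf.differentiable (by simp)
  have hΦd : Differentiable ℝ Φ := hΦ.differentiable (by simp)
  have h1 : fderiv ℝ (fun Q => f (Φ Q)) = fun Q => (fderiv ℝ f (Φ Q)).comp (fderiv ℝ Φ Q) := by
    funext Q
    exact fderiv_comp Q (hfd (Φ Q)) (hΦd Q)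
  have hf1 : ContDiff ℝ (⊤ : ℕ∞) (fderiv ℝ f) := hf.fderiv_right (by simp)
  have hΦ1 : ContDiff ℝ (⊤ : ℕ∞) (fderiv ℝ Φ) := hΦ.fderiv_right (by simp)
  have ha : HasFDerivAt (fun Q => fderiv ℝ f (Φ Q))
      ((fderiv ℝ (fderiv ℝ f) (Φ P)).comp (fderiv ℝ Φ P)) P :=
    ((hf1.differentiable (by simp) (Φ P)).hasFDerivAt).comp P (hΦd P).hasFDerivAt
  have hb : HasFDerivAt (fderiv ℝ Φ) (fderiv ℝ (fderiv ℝ Φ) P) P :=
    (hΦ1.differentiable (by simp) P).hasFDerivAt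
  have hc := ha.clm_comp hb
  unfold H2
  rw [h1, hc.fderiv]
  simp [ContinuousLinearMap.compL_apply, add_comm]

/-- composition with an affine map -/
theorem H2_comp_affine {f : F → ℝ} (hf : ContDiff ℝ (⊤ : ℕ∞) f) (L : E →L[ℝ] F) (c : F)
    (P v u : E) :
    H2 (fun Q => f (L Q + c)) P v u = H2 f (L P + c) (L v) (L u) := by
  have hΦ : ContDiff ℝ (⊤ : ℕ∞) (fun Q => L Q + c) := L.contDiff.add contDiff_const
  have h1 : fderiv ℝ (fun Q => L Q + c) = fun _ => L := by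
    funext Q
    exact (L.hasFDerivAt.add_const c).fderiv
  rw [H2_comp hf hΦ, h1]
  simp

end Pool.Agent.Helper98.MW
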