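import Pool.Agent.Helper98.MW.A.Slice

/-! MW-A07. The quadratic part. (Slices, polynomial derivatives.) -/

namespace Pool.Agent.Helper98.MW

private theorem contDiff_QQs (σ : ℝ) :
    ContDiff ℝ (⊤ : ℕ∞) (fun P : P4 => QQ P - σ * P.2.2.1 ^ 2) := by
  unfold QQ
  fun_prop

private theorem H2_QQs (σ a b x y : ℝ) :
    H2 (fun P : P4 => QQ P - σ * P.2.2.1 ^ 2) (a, b, x, y) eX eX = -(2 * σ) ∧
    H2 (fun P : P4 => QQ P - σ * P.2.2.1 ^ 2) (a, b, x, y) eX eY = a ∧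
    H2 (fun P : P4 => QQ P - σ * P.2.2.1 ^ 2) (a, b, x, y) eY eY = b := by
  have hc := contDiff_QQs σ
  have dx : ∀ x' : ℝ, deriv (fun x'' => (fun P : P4 => QQ P - σ * P.2.2.1 ^ 2) (a, b, x'', y)) x'
      = a * y - 2 * σ * x' := by
    intro x'
    have h1 : HasDerivAt (fun x'' : ℝ => a * x'' * y + b * y ^ 2 / 2 - σ * x'' ^ 2)
        (a * 1 * y - σ * (2 * x' ^ (2 - 1) * 1)) x' :=
      ((((hasDerivAt_id' x').const_mul a).mul_const y).add_const _).sub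
        (((hasDerivAt_id' x').pow 2).const_mul σ)
    have h2 := h1.deriv
    show deriv (fun x'' : ℝ => a * x'' * y + b * y ^ 2 / 2 - σ * x'' ^ 2) x' = _
    rw [h2]
    ring
  have dy : ∀ x' y' : ℝ, deriv (fun y'' => (fun P : P4 => QQ P - σ * P.2.2.1 ^ 2) (a, b, x', y'')) y'
      = a * x' + b * y' := by
    intro x' y'
    have h1 : HasDerivAt (fun y'' : ℝ => a * x' * y'' + b * y'' ^ 2 / 2 - σ * x' ^ 2)
        (a * x' * 1 + b * (2 * y' ^ (2 - 1) * 1) / 2) y' :=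
      (((hasDerivAt_id' y').const_mul (a * x')).add
        ((((hasDerivAt_id' y').pow 2).const_mul b).div_const 2)).sub_const _
    have h2 := h1.deriv
    show deriv (fun y'' : ℝ => a * x' * y'' + b * y'' ^ 2 / 2 - σ * x' ^ 2) y' = _
    rw [h2]
    ring
  refine ⟨?_, ?_, ?_⟩
  · rw [H2_slice_xx hc]
    simp only [dx]
    have h1 : HasDerivAt (fun x' : ℝ => a * y - 2 * σ * x') (-(2 * σ * 1)) x :=
      ((hasDerivAt_id' x).const_mul (2 * σ)).const_sub _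
    rw [h1.deriv, mul_one]
  · rw [H2_slice_xy hc]
    simp only [dy]
    have h1 : HasDerivAt (fun x' : ℝ => a * x' + b * y) (a * 1) x :=
      ((hasDerivAt_id' x).const_mul a).add_const _
    rw [h1.deriv, mul_one]
  · rw [H2_slice_yy hc]
    simp only [dy]
    have h1 : HasDerivAt (fun y' : ℝ => a * x + b * y') (b * 1) y :=
      ((hasDerivAt_id' y).const_mul b).const_add _
    rw [h1.deriv, mul_one]

private theorem H2_QQ0 (a b x y : ℝ) :
    H2 QQ (a, b, x, y) eX eX = 0 ∧ H2 QQ (a, b, x, y) eX eY = a ∧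
      H2 QQ (a, b, x, y) eY eY = b := by
  have h := H2_QQs 0 a b x y
  have e : (fun P : P4 => QQ P - 0 * P.2.2.1 ^ 2) = QQ := by
    funext P
    rw [zero_mul, sub_zero]
  rw [e] at h
  refine ⟨?_, h.2.1, h.2.2⟩
  rw [h.1]
  ring

theorem contDiff_QQ : ContDiff ℝ (⊤ : ℕ∞) QQ := by
  unfold QQ
  fun_prop

theorem H2_QQ_xx (P : P4) : H2 QQ P eX eX = 0 := by
  obtain ⟨a, b, x, y⟩ := P
  exact (H2_QQ0 a b x y).1

theorem H2_QQ_xy (P : P4) : H2 QQ P eX eY = P.1 := by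
  obtain ⟨a, b, x, y⟩ := P
  exact (H2_QQ0 a b x y).2.1

theorem H2_QQ_yy (P : P4) : H2 QQ P eY eY = P.2.1 := by
  obtain ⟨a, b, x, y⟩ := P
  exact (H2_QQ0 a b x y).2.2

/-- Hessian of `QQ P - σ x ^ 2` -/
theorem H2_QQ_sub (σ : ℝ) (P : P4) :
    H2 (fun P : P4 => QQ P - σ * P.2.2.1 ^ 2) P eX eX = -(2 * σ) ∧
    H2 (fun P : P4 => QQ P - σ * P.2.2.1 ^ 2) P eX eY = P.1 ∧
    H2 (fun P : P4 => QQ P - σ * P.2.2.1 ^ 2) P eY eY = P.2.1 := by
  obtain ⟨a, b, x, y⟩ := P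
  exact H2_QQs σ a b x y

end Pool.Agent.Helper98.MW
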