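import Pool.Agent.Helper98.MW.A.Comp

/-! MW-A05. Second derivatives in the coordinate directions as iterated one-dimensional derivatives.
Proof: for smooth `f`, `deriv (fun x' => f (a, b, x', y)) x = fderiv ℝ f (a, b, x, y) eX` (chain rule along an affine
line), and the same once more for the smooth function `Q ↦ fderiv ℝ f Q eX` (resp. `eY`); finally
`fderiv ℝ (fun Q => fderiv ℝ f Q u) P v = H2 f P v u`. -/

namespace Pool.Agent.Helper98.MW

private theorem hasDerivAt_lineX (a b x y : ℝ) :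
    HasDerivAt (fun x' : ℝ => ((a, b, x', y) : P4)) eX x := by
  have h := (hasDerivAt_const x a).prodMk ((hasDerivAt_const x b).prodMk
    ((hasDerivAt_id x).prodMk (hasDerivAt_const x y)))
  exact h

private theorem hasDerivAt_lineY (a b x y : ℝ) :
    HasDerivAt (fun y' : ℝ => ((a, b, x, y') : P4)) eY y := by
  have h := (hasDerivAt_const y a).prodMk ((hasDerivAt_const y b).prodMk
    ((hasDerivAt_const y x).prodMk (hasDerivAt_id y)))
  exact h

private theorem slice_x_of_diff {f : P4 → ℝ} (hf : Differentiable ℝ f) (a b x y : ℝ) :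
    deriv (fun x' => f (a, b, x', y)) x = fderiv ℝ f (a, b, x, y) eX :=
  ((hf (a, b, x, y)).hasFDerivAt.comp_hasDerivAt x (hasDerivAt_lineX a b x y)).deriv

private theorem slice_y_of_diff {f : P4 → ℝ} (hf : Differentiable ℝ f) (a b x y : ℝ) :
    deriv (fun y' => f (a, b, x, y')) y = fderiv ℝ f (a, b, x, y) eY :=
  ((hf (a, b, x, y)).hasFDerivAt.comp_hasDerivAt y (hasDerivAt_lineY a b x y)).deriv

private theorem diff_fderiv_apply {f : P4 → ℝ} (hf : ContDiff ℝ (⊤ : ℕ∞) f) (u : P4) :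
    Differentiable ℝ (fun Q => fderiv ℝ f Q u) := by
  have hf1 : ContDiff ℝ (⊤ : ℕ∞) (fderiv ℝ f) := hf.fderiv_right (by simp)
  exact (hf1.differentiable (by simp)).clm_apply (differentiable_const u)

private theorem fderiv_fderiv_apply {f : P4 → ℝ} (hf : ContDiff ℝ (⊤ : ℕ∞) f) (P v u : P4) :
    fderiv ℝ (fun Q => fderiv ℝ f Q u) P v = H2 f P v u := by
  have hf1 : ContDiff ℝ (⊤ : ℕ∞) (fderiv ℝ f) := hf.fderiv_right (by simp)
  have h := ((hf1.differentiable (by simp) P).hasFDerivAt).clm_apply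
    (hasFDerivAt_const u P)
  rw [h.fderiv]
  simp [H2]

private theorem H2_symm' {f : P4 → ℝ} (hf : ContDiff ℝ (⊤ : ℕ∞) f) (P v u : P4) :
    H2 f P v u = H2 f P u v := by
  have h : IsSymmSndFDerivAt ℝ f P := by
    apply ContDiffAt.isSymmSndFDerivAt (n := (⊤ : ℕ∞)) hf.contDiffAt
    simp only [minSmoothness_of_isRCLikeNormedField]
    exact WithTop.coe_le_coe.2 (le_top : (2 : ℕ∞) ≤ ⊤)
  exact h v u

theorem deriv_slice_x {f : P4 → ℝ} (hf : ContDiff ℝ (⊤ : ℕ∞) f) (a b x y : ℝ) :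
    deriv (fun x' => f (a, b, x', y)) x = fderiv ℝ f (a, b, x, y) eX :=
  slice_x_of_diff (hf.differentiable (by simp)) a b x y

theorem deriv_slice_y {f : P4 → ℝ} (hf : ContDiff ℝ (⊤ : ℕ∞) f) (a b x y : ℝ) :
    deriv (fun y' => f (a, b, x, y')) y = fderiv ℝ f (a, b, x, y) eY :=
  slice_y_of_diff (hf.differentiable (by simp)) a b x y

theorem H2_slice_xx {f : P4 → ℝ} (hf : ContDiff ℝ (⊤ : ℕ∞) f) (a b x y : ℝ) :
    H2 f (a, b, x, y) eX eX = deriv (fun x' => deriv (fun x'' => f (a, b, x'', y)) x') x := by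
  have h1 : (fun x' => deriv (fun x'' => f (a, b, x'', y)) x')
      = fun x' => fderiv ℝ f (a, b, x', y) eX := by
    funext x'
    exact deriv_slice_x hf a b x' y
  rw [h1, ← fderiv_fderiv_apply hf]
  exact (slice_x_of_diff (diff_fderiv_apply hf eX) a b x y).symm

theorem H2_slice_xy {f : P4 → ℝ} (hf : ContDiff ℝ (⊤ : ℕ∞) f) (a b x y : ℝ) :
    H2 f (a, b, x, y) eX eY = deriv (fun x' => deriv (fun y' => f (a, b, x', y')) y) x := by
  have h1 : (fun x' => deriv (fun y' => f (a, b, x', y')) y)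
      = fun x' => fderiv ℝ f (a, b, x', y) eY := by
    funext x'
    exact deriv_slice_y hf a b x' y
  rw [h1, ← fderiv_fderiv_apply hf]
  exact (slice_x_of_diff (diff_fderiv_apply hf eY) a b x y).symm

/-- the other order of differentiation -/
theorem H2_slice_yx {f : P4 → ℝ} (hf : ContDiff ℝ (⊤ : ℕ∞) f) (a b x y : ℝ) :
    H2 f (a, b, x, y) eX eY = deriv (fun y' => deriv (fun x' => f (a, b, x', y')) x) y := by
  have h1 : (fun y' => deriv (fun x' => f (a, b, x', y')) x)
      = fun y' => fderiv ℝ f (a, b, x, y') eX := by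
    funext y'
    exact deriv_slice_x hf a b x y'
  rw [h1, H2_symm' hf, ← fderiv_fderiv_apply hf]
  exact (slice_y_of_diff (diff_fderiv_apply hf eX) a b x y).symm

theorem H2_slice_yy {f : P4 → ℝ} (hf : ContDiff ℝ (⊤ : ℕ∞) f) (a b x y : ℝ) :
    H2 f (a, b, x, y) eY eY = deriv (fun y' => deriv (fun y'' => f (a, b, x, y'')) y') y := by
  have h1 : (fun y' => deriv (fun y'' => f (a, b, x, y'')) y')
      = fun y' => fderiv ℝ f (a, b, x, y') eY := by
    funext y'
    exact deriv_slice_y hf a b x y'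
  rw [h1, ← fderiv_fderiv_apply hf]
  exact (slice_y_of_diff (diff_fderiv_apply hf eY) a b x y).symm

end Pool.Agent.Helper98.MW
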