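import Pool.Agent.Helper98.MW.Defs

/-! MW-A06. `Good` is open, and the compactness lemma. Proof of `good_tube`: for `k ∈ S` the set of `q : ℝ × K` with
`Good (f q) (g q) (h q)` is a neighbourhood of `(0, k)` (open condition, `ContinuousAt`), so it contains
`{|ε| < δ_k} ×ˢ U_k`; finitely many `U_k` cover `S` (`IsCompact.elim_nhds_subcover'` or
`IsCompact.induction_on`); take the minimum of the `δ_k`. -/

namespace Pool.Agent.Helper98.MW

open Topology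

theorem good_open : IsOpen {t : ℝ × ℝ × ℝ | Good t.1 t.2.1 t.2.2} := by
  have h : {t : ℝ × ℝ × ℝ | Good t.1 t.2.1 t.2.2}
      = {t : ℝ × ℝ × ℝ | t.1 * t.2.2 < t.2.1 ^ 2}
        ∩ {t : ℝ × ℝ × ℝ | 1 < t.1 ^ 2 + 2 * t.2.1 ^ 2 + t.2.2 ^ 2} := by
    ext t; rfl
  rw [h]
  exact (isOpen_lt (by fun_prop) (by fun_prop)).inter (isOpen_lt (by fun_prop) (by fun_prop))

theorem good_tube {K : Type*} [TopologicalSpace K] {S : Set K} (hS : IsCompact S)
    {f g h : ℝ × K → ℝ} (hf : ∀ k ∈ S, ContinuousAt f (0, k))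
    (hg : ∀ k ∈ S, ContinuousAt g (0, k)) (hh : ∀ k ∈ S, ContinuousAt h (0, k))
    (h0 : ∀ k ∈ S, Good (f (0, k)) (g (0, k)) (h (0, k))) :
    ∃ δ > 0, ∀ ε : ℝ, |ε| < δ → ∀ k ∈ S, Good (f (ε, k)) (g (ε, k)) (h (ε, k)) := by
  have hev : ∀ᶠ ε in 𝓝 (0 : ℝ), ∀ k ∈ S, Good (f (ε, k)) (g (ε, k)) (h (ε, k)) := by
    refine hS.eventually_forall_of_forall_eventually (P := fun ε k =>
      Good (f (ε, k)) (g (ε, k)) (h (ε, k))) ?_
    intro k hk
    have hc : ContinuousAt (fun q : ℝ × K => (f q, g q, h q)) (0, k) :=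
      (hf k hk).prodMk ((hg k hk).prodMk (hh k hk))
    exact hc (good_open.mem_nhds (h0 k hk))
  obtain ⟨δ, hδ, hb⟩ := Metric.eventually_nhds_iff.mp hev
  refine ⟨δ, hδ, fun ε hε => hb ?_⟩
  rwa [Real.dist_eq, sub_zero]

/-- symmetries of `Good` -/
theorem good_neg {A B C : ℝ} (h : Good A B C) : Good (-A) (-B) (-C) := by
  obtain ⟨h1, h2⟩ := h
  exact ⟨by nlinarith, by nlinarith⟩

theorem good_flip {A B C : ℝ} (h : Good A B C) : Good A (-B) C := by
  obtain ⟨h1, h2⟩ := h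
  exact ⟨by nlinarith, by nlinarith⟩

end Pool.Agent.Helper98.MW
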