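import Pool.Agent.Helper98.MW.A.Add
import Pool.Agent.Helper98.MW.A.Comp

/-! MW-A04. The two-scale formula. Proof: apply `H2_comp` to `Ω` and `Φ Q = (Q, n T Q, n S Q)`:
`DΦ v = (v, n DT v, n DS v)`, `D²Φ (v, u) = (0, n H2 T v u, n H2 S v u)`; then divide by `n ^ 2` using bilinearity
(`H2 Ω R (n • v') (n • u') = n ^ 2 * H2 Ω R v' u'`) and linearity. -/

namespace Pool.Agent.Helper98.MW

variable {E : Type*} [NormedAddCommGroup E] [NormedSpace ℝ E]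

theorem H2_twoscale {Ω : E × ℝ × ℝ → ℝ} (hΩ : ContDiff ℝ (⊤ : ℕ∞) Ω) {T S : E → ℝ}
    (hT : ContDiff ℝ (⊤ : ℕ∞) T) (hS : ContDiff ℝ (⊤ : ℕ∞) S) {n : ℝ} (hn : n ≠ 0)
    (P v u : E) :
    H2 (fun Q => Ω (Q, n * T Q, n * S Q) / n ^ 2) P v u
      = H2 Ω (P, n * T P, n * S P) (n⁻¹ • v, fderiv ℝ T P v, fderiv ℝ S P v)
          (n⁻¹ • u, fderiv ℝ T P u, fderiv ℝ S P u)
        + n⁻¹ * fderiv ℝ Ω (P, n * T P, n * S P) (0, H2 T P v u, H2 S P v u) := by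
  obtain ⟨e₁, he₁⟩ : ∃ e₁ : E × ℝ × ℝ, e₁ = (0, n, 0) := ⟨_, rfl⟩
  obtain ⟨e₂, he₂⟩ : ∃ e₂ : E × ℝ × ℝ, e₂ = (0, 0, n) := ⟨_, rfl⟩
  obtain ⟨Φ, hΦd⟩ : ∃ Φ : E → E × ℝ × ℝ, Φ = fun Q => (Q, n * T Q, n * S Q) := ⟨_, rfl⟩
  have hΦ : ContDiff ℝ (⊤ : ℕ∞) Φ := by
    rw [hΦd]
    exact contDiff_id.prodMk ((contDiff_const.mul hT).prodMk (contDiff_const.mul hS))
  have hT1 : Differentiable ℝ T := hT.differentiable (by simp)
  have hS1 : Differentiable ℝ S := hS.differentiable (by simp)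
  have hT3 : ContDiff ℝ (⊤ : ℕ∞) (fderiv ℝ T) := hT.fderiv_right (by simp)
  have hS3 : ContDiff ℝ (⊤ : ℕ∞) (fderiv ℝ S) := hS.fderiv_right (by simp)
  have hT2 : Differentiable ℝ (fderiv ℝ T) := hT3.differentiable (by simp)
  have hS2 : Differentiable ℝ (fderiv ℝ S) := hS3.differentiable (by simp)
  have hΦ2 : Φ = fun Q => ContinuousLinearMap.inl ℝ E (ℝ × ℝ) Q + T Q • e₁ + S Q • e₂ := by
    rw [hΦd]
    funext Q
    rw [he₁, he₂]
    simp [mul_comm]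
  have hd1 : fderiv ℝ Φ = fun Q => ContinuousLinearMap.inl ℝ E (ℝ × ℝ) + (fderiv ℝ T Q).smulRight e₁ +
      (fderiv ℝ S Q).smulRight e₂ := by
    funext Q
    rw [hΦ2]
    exact ((((ContinuousLinearMap.inl ℝ E (ℝ × ℝ)).hasFDerivAt).add ((hT1 Q).hasFDerivAt.smul_const e₁)).add
      ((hS1 Q).hasFDerivAt.smul_const e₂)).fderiv
  have hd2 : fderiv ℝ (fderiv ℝ Φ) P v u = H2 T P v u • e₁ + H2 S P v u • e₂ := by
    have h3 : ∀ (g : E → ℝ) (e : E × ℝ × ℝ), Differentiable ℝ (fderiv ℝ g) →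
        HasFDerivAt (fun Q => (fderiv ℝ g Q).smulRight e)
          (((ContinuousLinearMap.smulRightL ℝ E (E × ℝ × ℝ)).flip e).comp (fderiv ℝ (fderiv ℝ g) P)) P := by
      intro g e hg
      exact (((ContinuousLinearMap.smulRightL ℝ E (E × ℝ × ℝ)).flip e).hasFDerivAt).comp P
        (hg P).hasFDerivAt
    have h4 : HasFDerivAt (fun Q => ContinuousLinearMap.inl ℝ E (ℝ × ℝ) + (fderiv ℝ T Q).smulRight e₁ +
        (fderiv ℝ S Q).smulRight e₂) _ P :=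
      ((hasFDerivAt_const (ContinuousLinearMap.inl ℝ E (ℝ × ℝ)) P).add (h3 T e₁ hT2)).add (h3 S e₂ hS2)
    rw [hd1, h4.fderiv]
    simp [H2]
  have hdv : ∀ v : E, fderiv ℝ Φ P v = n • (n⁻¹ • v, fderiv ℝ T P v, fderiv ℝ S P v) := by
    intro v
    rw [hd1]
    simp only [_root_.add_apply, ContinuousLinearMap.smulRight_apply,
      ContinuousLinearMap.inl_apply, he₁, he₂]
    ext
    · simp [smul_smul, mul_inv_cancel₀ hn]
    · simp [mul_comm]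
    · simp [mul_comm]
  have hcomp := H2_comp hΩ hΦ P v u
  have hmul := H2_const_mul (hΩ.comp hΦ) (n ^ 2)⁻¹ P v u
  have hfun : (fun Q => Ω (Q, n * T Q, n * S Q) / n ^ 2) = fun Q => (n ^ 2)⁻¹ * (Ω ∘ Φ) Q := by
    funext Q
    rw [hΦd, div_eq_inv_mul]
    rfl
  have hP : Φ P = (P, n * T P, n * S P) := by rw [hΦd]
  rw [hfun, hmul]
  have hc2 : H2 (Ω ∘ Φ) P v u = H2 (fun Q => Ω (Φ Q)) P v u := rfl
  rw [hc2, hcomp, hd2, hdv v, hdv u, hP]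
  have hbil : ∀ a b : E × ℝ × ℝ, H2 Ω (P, n * T P, n * S P) (n • a) (n • b) =
      n ^ 2 * H2 Ω (P, n * T P, n * S P) a b := by
    intro a b
    unfold H2
    rw [map_smul, map_smul, _root_.smul_apply, smul_eq_mul, smul_eq_mul]
    ring
  have he : H2 T P v u • e₁ + H2 S P v u • e₂ = n • ((0 : E), H2 T P v u, H2 S P v u) := by
    rw [he₁, he₂]
    ext
    · simp
    · simp [mul_comm]
    · simp [mul_comm]
  rw [hbil, he, map_smul, smul_eq_mul]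
  field_simp

end Pool.Agent.Helper98.MW
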